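import Pool.Agent.Helper97.FS.Stmts

set_option autoImplicit false

namespace Pool.Agent.Helper97.FS

open Finset MeasureTheory Filter Topology
open scoped ComplexConjugate

/-- the window function -/
noncomputable def ww1_S (ℓ : ℕ) (p : ℕ → ℝ) (z : ℕ → ℂ) (y : ℝ × ℝ) : ℂ :=
  ∑ i ∈ range ℓ, if y.2 ≤ p i ∧ p i < y.2 + y.1 then z i else 0

theorem ww1_meas (ℓ : ℕ) (p : ℕ → ℝ) (z : ℕ → ℂ) : Measurable (ww1_S ℓ p z) := by
  unfold ww1_S
  refine Finset.measurable_sum _ fun i _ => ?_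
  refine Measurable.ite ?_ measurable_const measurable_const
  exact (measurableSet_le measurable_snd measurable_const).inter
    (measurableSet_lt measurable_const (measurable_snd.add measurable_fst))

theorem ww1_bd (ℓ : ℕ) (p : ℕ → ℝ) (z : ℕ → ℂ) (y : ℝ × ℝ) :
    ‖ww1_S ℓ p z y‖ ≤ ∑ i ∈ range ℓ, ‖z i‖ := by
  unfold ww1_S
  refine norm_sum_le_of_le _ fun i _ => ?_
  split_ifs
  · exact le_rfl
  · simp

theorem ww1_mono {ℓ : ℕ} {p : ℕ → ℝ} {δ : ℝ} (hδ : 0 < δ)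
    (hp : ∀ i < ℓ, p i + δ ≤ p (i + 1)) {i j : ℕ} (hij : i < j) (hj : j ≤ ℓ) :
    p i + δ ≤ p j := by
  induction j, hij using Nat.le_induction with
  | base => exact hp i (by omega)
  | succ j hj' ih =>
    have h1 := ih (by omega)
    have h2 := hp j (by omega)
    linarith

theorem ww1_monole {ℓ : ℕ} {p : ℕ → ℝ} {δ : ℝ} (hδ : 0 < δ)
    (hp : ∀ i < ℓ, p i + δ ≤ p (i + 1)) {i j : ℕ} (hij : i ≤ j) (hj : j ≤ ℓ) :
    p i ≤ p j := by
  rcases hij.eq_or_lt with rfl | h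
  · exact le_rfl
  · have := ww1_mono hδ hp h hj
    linarith

theorem ww1_intOn (ℓ : ℕ) (p : ℕ → ℝ) (z : ℕ → ℂ) (t δ : ℝ) (hδ : 0 < δ)
    (hp : ∀ i < ℓ, p i + δ ≤ p (i + 1)) :
    IntegrableOn (fun y : ℝ × ℝ => ‖ww1_S ℓ p z y‖ ^ 2) (Set.Ioc 0 t ×ˢ Set.univ)
      (volume.prod volume) := by
  have h0 : IntegrableOn (fun y : ℝ × ℝ => ‖ww1_S ℓ p z y‖ ^ 2)
      (Set.Ioc 0 t ×ˢ Set.Icc (p 0 - t) (p ℓ)) (volume.prod volume) := by
    refine Measure.integrableOn_of_bounded (M := (∑ i ∈ range ℓ, ‖z i‖) ^ 2) ?_ ?_ ?_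
    · rw [Measure.prod_prod]
      simp only [Real.volume_Ioc, Real.volume_Icc]
      exact ENNReal.mul_ne_top ENNReal.ofReal_ne_top ENNReal.ofReal_ne_top
    · exact ((ww1_meas ℓ p z).norm.pow_const 2).aestronglyMeasurable
    · refine Eventually.of_forall fun y => ?_
      rw [Real.norm_of_nonneg (by positivity)]
      exact pow_le_pow_left₀ (norm_nonneg _) (ww1_bd ℓ p z y) 2
  refine h0.of_forall_sdiff_eq_zero (measurableSet_Ioc.prod MeasurableSet.univ) ?_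
  rintro ⟨s, x⟩ ⟨⟨hs, -⟩, hx⟩
  have hz : ww1_S ℓ p z (s, x) = 0 := by
    unfold ww1_S
    refine Finset.sum_eq_zero fun i hi => ?_
    rw [if_neg]
    rintro ⟨h1, h2⟩
    apply hx
    have hi' : i < ℓ := Finset.mem_range.1 hi
    have a1 := ww1_monole hδ hp (Nat.zero_le i) hi'.le
    have a2 := ww1_monole hδ hp hi'.le le_rfl
    simp only [Set.mem_Ioc] at hs
    refine ⟨hs, ?_, ?_⟩
    · simp only at h2 ⊢
      linarith [hs.2]
    · simp only at h1 ⊢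
      linarith
  rw [hz]; simp

/-- the region of the pair `(i, i')` -/
def ww1_R (p : ℕ → ℝ) (δ : ℝ) (i i' : ℕ) : Set (ℝ × ℝ) :=
  {y | y.2 ∈ Set.Ioc (p i - δ) (p i) ∧ y.2 + y.1 ∈ Set.Ioc (p i' - δ) (p i')}

theorem ww1_Rmeas (p : ℕ → ℝ) (δ : ℝ) (i i' : ℕ) : MeasurableSet (ww1_R p δ i i') :=
  (measurable_snd measurableSet_Ioc).inter ((measurable_snd.add measurable_fst) measurableSet_Ioc)

theorem ww1_Rsub {ℓ : ℕ} {p : ℕ → ℝ} {t δ : ℝ} (hδ : 0 < δ)
    (hp : ∀ i < ℓ, p i + δ ≤ p (i + 1)) {i i' : ℕ} (hij : i < i') (hj : i' ≤ ℓ)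
    (ht : p i' - p i + δ ≤ t) : ww1_R p δ i i' ⊆ Set.Ioc 0 t ×ˢ Set.univ := by
  rintro ⟨s, x⟩ ⟨⟨h1, h2⟩, h3, h4⟩
  have := ww1_mono hδ hp hij hj
  simp only at h1 h2 h3 h4
  refine ⟨⟨?_, ?_⟩, trivial⟩
  · simp only; linarith
  · simp only; linarith

theorem ww1_Rvol (p : ℕ → ℝ) (δ : ℝ) (hδ : 0 < δ) (i i' : ℕ) :
    (volume.prod volume : Measure (ℝ × ℝ)) (ww1_R p δ i i') = ENNReal.ofReal (δ ^ 2) := by
  rw [Measure.prod_apply_symm (ww1_Rmeas p δ i i')]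
  have h1 : ∀ x : ℝ, volume ((fun s : ℝ => (s, x)) ⁻¹' (ww1_R p δ i i')) =
      (Set.Ioc (p i - δ) (p i)).indicator (fun _ => ENNReal.ofReal δ) x := by
    intro x
    by_cases hx : x ∈ Set.Ioc (p i - δ) (p i)
    · rw [Set.indicator_of_mem hx]
      have : (fun s : ℝ => (s, x)) ⁻¹' (ww1_R p δ i i') = Set.Ioc (p i' - δ - x) (p i' - x) := by
        ext s
        simp only [ww1_R, Set.mem_preimage, Set.mem_ofPred_eq, Set.mem_Ioc]
        constructor
        · rintro ⟨-, h3, h4⟩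
          exact ⟨by linarith, by linarith⟩
        · rintro ⟨h3, h4⟩
          exact ⟨hx, by linarith, by linarith⟩
      rw [this, Real.volume_Ioc]
      congr 1
      ring
    · rw [Set.indicator_of_notMem hx]
      have : (fun s : ℝ => (s, x)) ⁻¹' (ww1_R p δ i i') = ∅ := by
        ext s
        simp only [ww1_R, Set.mem_preimage, Set.mem_ofPred_eq, Set.mem_empty_iff_false, iff_false]
        exact fun h => hx h.1
      rw [this, measure_empty]
  simp_rw [h1]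
  rw [lintegral_indicator measurableSet_Ioc, lintegral_const, Measure.restrict_apply_univ,
    Real.volume_Ioc, ← ENNReal.ofReal_mul hδ.le]
  congr 1
  ring

/-- on the region of `(i, i')` the window sees the letters of `Ico i i'` -/
theorem ww1_val {ℓ : ℕ} {p : ℕ → ℝ} {δ : ℝ} (hδ : 0 < δ)
    (hp : ∀ i < ℓ, p i + δ ≤ p (i + 1)) {i i' : ℕ} (hij : i < i') (hj : i' ≤ ℓ) (z : ℕ → ℂ)
    {y : ℝ × ℝ} (hy : y ∈ ww1_R p δ i i') : ww1_S ℓ p z y = ∑ r ∈ Ico i i', z r := by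
  obtain ⟨⟨h1, h2⟩, h3, h4⟩ := hy
  unfold ww1_S
  rw [← Finset.sum_filter]
  refine Finset.sum_congr ?_ fun _ _ => rfl
  ext r
  simp only [Finset.mem_filter, Finset.mem_range, Finset.mem_Ico]
  constructor
  · rintro ⟨hr, h5, h6⟩
    constructor
    · by_contra hc
      have := ww1_mono hδ hp (not_le.1 hc) (hij.le.trans hj)
      linarith
    · by_contra hc
      have := ww1_monole hδ hp (not_lt.1 hc) hr.le
      linarith
  · rintro ⟨h5, h6⟩
    refine ⟨by omega, ?_, ?_⟩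
    · have := ww1_monole hδ hp h5 (h6.le.trans hj)
      linarith
    · have := ww1_mono hδ hp h6 hj
      linarith

theorem ww1_disj {ℓ : ℕ} {p : ℕ → ℝ} {δ : ℝ} (hδ : 0 < δ)
    (hp : ∀ i < ℓ, p i + δ ≤ p (i + 1)) {i j : ℕ} (hi : i ≤ ℓ) (hj : j ≤ ℓ) {x : ℝ}
    (h1 : x ∈ Set.Ioc (p i - δ) (p i)) (h2 : x ∈ Set.Ioc (p j - δ) (p j)) : i = j := by
  rcases lt_trichotomy i j with h | h | h
  · have := ww1_mono hδ hp h hj
    exact absurd h2.1 (by linarith [h1.2])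
  · exact h
  · have := ww1_mono hδ hp h hi
    exact absurd h1.1 (by linarith [h2.2])

theorem ww1_one (ℓ : ℕ) (p : ℕ → ℝ) (z : ℕ → ℂ) (t δ : ℝ) (hδ : 0 < δ) (ht0 : 0 < t)
    (hp : ∀ i < ℓ, p i + δ ≤ p (i + 1)) :
    δ ^ 2 * ∑ i ∈ range (ℓ + 1), ∑ i' ∈ range (ℓ + 1), (if i < i' ∧ p i' - p i + δ ≤ t then
      ‖∑ r ∈ Ico i i', z r‖ ^ 2 else 0) ≤
      ∫ s in (0 : ℝ)..t, ∫ x : ℝ, ‖∑ i ∈ range ℓ, if x ≤ p i ∧ p i < x + s then z i else 0‖ ^ 2 := by
  have hint := ww1_intOn ℓ p z t δ hδ hp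
  have e1 : ∫ s in (0 : ℝ)..t, ∫ x : ℝ,
      ‖∑ i ∈ range ℓ, if x ≤ p i ∧ p i < x + s then z i else 0‖ ^ 2 =
      ∫ y in Set.Ioc 0 t ×ˢ Set.univ, ‖ww1_S ℓ p z y‖ ^ 2 ∂(volume.prod volume) := by
    rw [intervalIntegral.integral_of_le ht0.le, setIntegral_prod _ hint]
    simp only [Measure.restrict_univ]
    rfl
  rw [e1]
  -- the lower function
  set P : Finset (ℕ × ℕ) := (range (ℓ + 1) ×ˢ range (ℓ + 1)).filter
    (fun q => q.1 < q.2 ∧ p q.2 - p q.1 + δ ≤ t) with hP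
  have e2 : δ ^ 2 * ∑ i ∈ range (ℓ + 1), ∑ i' ∈ range (ℓ + 1),
      (if i < i' ∧ p i' - p i + δ ≤ t then ‖∑ r ∈ Ico i i', z r‖ ^ 2 else 0) =
      ∑ q ∈ P, δ ^ 2 * ‖∑ r ∈ Ico q.1 q.2, z r‖ ^ 2 := by
    rw [← Finset.sum_product', hP, Finset.sum_filter, Finset.mul_sum]
    refine Finset.sum_congr rfl fun q _ => ?_
    split_ifs
    · rfl
    · simp
  have e3 : ∀ q ∈ P, δ ^ 2 * ‖∑ r ∈ Ico q.1 q.2, z r‖ ^ 2 =
      ∫ y in Set.Ioc 0 t ×ˢ Set.univ, (ww1_R p δ q.1 q.2).indicator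
        (fun _ => ‖∑ r ∈ Ico q.1 q.2, z r‖ ^ 2) y ∂(volume.prod volume) := by
    intro q hq
    rw [hP, Finset.mem_filter, Finset.mem_product, Finset.mem_range, Finset.mem_range] at hq
    rw [setIntegral_indicator (ww1_Rmeas _ _ _ _),
      Set.inter_eq_self_of_subset_right (ww1_Rsub hδ hp hq.2.1 (by omega) hq.2.2),
      setIntegral_const]
    rw [Measure.real, ww1_Rvol p δ hδ, ENNReal.toReal_ofReal (by positivity), smul_eq_mul]
  rw [e2, Finset.sum_congr rfl e3, ← integral_finsetSum]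
  · refine setIntegral_mono_on ?_ hint (measurableSet_Ioc.prod MeasurableSet.univ) ?_
    · refine integrable_finsetSum _ fun q _ => ?_
      refine (integrable_indicator_iff (ww1_Rmeas _ _ _ _)).2 ?_
      refine integrableOn_const ?_
      refine ne_of_lt (lt_of_le_of_lt (Measure.restrict_apply_le _ _) ?_)
      rw [ww1_Rvol p δ hδ]
      exact ENNReal.ofReal_lt_top
    · intro y _
      by_cases hex : ∃ q ∈ P, y ∈ ww1_R p δ q.1 q.2
      · obtain ⟨q, hq, hy⟩ := hex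
        have hq' := hq
        rw [hP, Finset.mem_filter, Finset.mem_product, Finset.mem_range, Finset.mem_range] at hq'
        rw [Finset.sum_eq_single q]
        · rw [Set.indicator_of_mem hy, ww1_val hδ hp hq'.2.1 (by omega) z hy]
        · intro q2 hq2 hne
          rw [Set.indicator_of_notMem]
          intro hy2
          apply hne
          rw [hP, Finset.mem_filter, Finset.mem_product, Finset.mem_range, Finset.mem_range] at hq2
          exact Prod.ext (ww1_disj hδ hp (by omega) (by omega) hy2.1 hy.1)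
            (ww1_disj hδ hp (by omega) (by omega) hy2.2 hy.2)
        · exact fun h => absurd hq h
      · push Not at hex
        rw [Finset.sum_eq_zero]
        · positivity
        · intro q hq
          rw [Set.indicator_of_notMem (hex q hq)]
  · intro q _
    refine (integrable_indicator_iff (ww1_Rmeas _ _ _ _)).2 ?_
    refine integrableOn_const ?_
    refine ne_of_lt (lt_of_le_of_lt (Measure.restrict_apply_le _ _) ?_)
    rw [ww1_Rvol p δ hδ]
    exact ENNReal.ofReal_lt_top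

theorem st_WW1 (hWW : ST_WW) : ST_WW1 := by
  intro d ℓ p z t δ ht hδ hp
  have h1 : ∀ c : Fin d, δ ^ 2 * ∑ i ∈ range (ℓ + 1), ∑ i' ∈ range (ℓ + 1),
      (if i < i' ∧ p i' - p i + δ ≤ t then ‖∑ r ∈ Ico i i', z c r‖ ^ 2 else 0) ≤
      (t ^ 2 / 2) * ∑ i ∈ range ℓ, ∑ i' ∈ range ℓ,
        (z c i * conj (z c i')).re * ww ((p i - p i') / t) := by
    intro c
    rw [hWW ℓ p (z c) t ht]
    exact ww1_one ℓ p (z c) t δ hδ ht hp
  have h2 : ∑ c : Fin d, (δ ^ 2 * ∑ i ∈ range (ℓ + 1), ∑ i' ∈ range (ℓ + 1),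
      (if i < i' ∧ p i' - p i + δ ≤ t then ‖∑ r ∈ Ico i i', z c r‖ ^ 2 else 0)) ≤
      ∑ c : Fin d, ((t ^ 2 / 2) * ∑ i ∈ range ℓ, ∑ i' ∈ range ℓ,
        (z c i * conj (z c i')).re * ww ((p i - p i') / t)) :=
    Finset.sum_le_sum fun c _ => h1 c
  rw [← Finset.mul_sum, ← Finset.mul_sum] at h2
  refine le_trans (le_of_eq ?_) h2
  congr 1
  rw [Finset.sum_comm (s := (Finset.univ : Finset (Fin d)))]
  refine Finset.sum_congr rfl fun i _ => ?_
  rw [Finset.sum_comm (s := (Finset.univ : Finset (Fin d)))]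
  refine Finset.sum_congr rfl fun i' _ => ?_
  split_ifs
  · rfl
  · simp

end Pool.Agent.Helper97.FS
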